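import Mathlib

set_option autoImplicit false

open MeasureTheory ProbabilityTheory Filter Topology

namespace Pool.Agent.W784.HP

/-- `ξ 0, ξ 1, …` are independent standard complex Gaussian variables: each has the density
`exp (-|w|²) / π` with respect to the area measure of the complex plane. -/
structure IsGaussianSeq {Ω : Type*} [MeasurableSpace Ω] (P : Measure Ω) (ξ : ℕ → Ω → ℂ) :
    Prop where
  measurable : ∀ n, Measurable (ξ n)
  law : ∀ n, P.map (ξ n) =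
    (volume : Measure ℂ).withDensity (fun w => ENNReal.ofReal (Real.exp (-‖w‖ ^ 2) / Real.pi))
  indep : iIndepFun ξ P

/-- The Gaussian entire function `f(z) = ∑ ξ_n z^n / √(n!)`. -/
noncomputable def gef {Ω : Type*} (ξ : ℕ → Ω → ℂ) (ω : Ω) (z : ℂ) : ℂ :=
  ∑' n : ℕ, ξ n ω * z ^ n / ((Real.sqrt (n.factorial : ℝ) : ℝ) : ℂ)

/-- The hole probability exponent `-log P (f(z) ≠ 0 for all z ∈ rK)`. -/
noncomputable def holeExponent {Ω : Type*} [MeasurableSpace Ω] (P : Measure Ω) (ξ : ℕ → Ω → ℂ)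
    (K : Set ℂ) (r : ℝ) : ℝ :=
  -Real.log (P {ω | ∀ z ∈ K, gef ξ ω ((r : ℂ) * z) ≠ 0}).toReal

/-- The `n`-th diameter `sup ∏_{i < j} |z_j - z_i| ^ (2 / (n (n - 1)))` over `z_1, …, z_n ∈ K`. -/
noncomputable def diam (K : Set ℂ) (n : ℕ) : ℝ :=
  ⨆ z : Fin n → K, (∏ i : Fin n, ∏ j ∈ Finset.Ioi i, ‖((z j : ℂ)) - (z i : ℂ)‖) ^
    (2 / ((n : ℝ) * ((n : ℝ) - 1)))

/-- The logarithmic capacity (transfinite diameter) of a compact set, the limit of the `n`-th
diameters. -/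
noncomputable def capacity (K : Set ℂ) : ℝ := limsup (fun n : ℕ => diam K n) atTop

/-- The thin rectangle `[R, R + 1/R] × [-1, 1]`. -/
def thin (R : ℝ) : Set ℂ := {z : ℂ | R ≤ z.re ∧ z.re ≤ R + 1 / R ∧ |z.im| ≤ 1}

end Pool.Agent.W784.HP
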