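import Pool.Agent.W784.HP.NoZero

set_option autoImplicit false

open MeasureTheory ProbabilityTheory Filter Topology

namespace Pool.Agent.W784.HP

lemma dat_of_mem {R r : ℝ} (hR : 300 ≤ R) (hr : 10 ≤ r) {z : ℂ} (hz : z ∈ thin R) :
    Dat R r ‖(r : ℂ) * z‖ := by
  obtain ⟨h1, h2, h3⟩ := hz
  have hR0 : 0 < R := by linarith
  have hzn : ‖z‖ ^ 2 = z.re ^ 2 + z.im ^ 2 := by
    rw [Complex.sq_norm, Complex.normSq_apply]; ring
  have him : z.im ^ 2 ≤ 1 := by
    rw [← sq_abs]; nlinarith [abs_nonneg z.im]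
  have hinv : 1 / R ≤ 1 := by rw [div_le_one hR0]; linarith
  have hinv0 : 0 < 1 / R := by positivity
  have hRR : R * (1 / R) = 1 := by field_simp
  have hlo : R ^ 2 ≤ ‖z‖ ^ 2 := by nlinarith
  have hhi : ‖z‖ ^ 2 ≤ R ^ 2 + 4 := by nlinarith
  have hn : ‖(r : ℂ) * z‖ = r * ‖z‖ := by
    rw [norm_mul, Complex.norm_real, Real.norm_eq_abs, abs_of_nonneg (by linarith)]
  refine ⟨hR, hr, ?_, ?_, ?_⟩
  · rw [hn]
    have : 0 < ‖z‖ ^ 2 := by nlinarith
    have : 0 < ‖z‖ := by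
      by_contra hc
      have : ‖z‖ = 0 := le_antisymm (not_lt.1 hc) (norm_nonneg _)
      rw [this] at hlo
      nlinarith
    positivity
  · rw [hn, mul_pow]; nlinarith [sq_nonneg r]
  · rw [hn, mul_pow]; nlinarith [sq_nonneg r]

/-- The logarithm of the product of the thresholds. -/
lemma sum_log {R r : ℝ} (hR : 300 ≤ R) (hr : 10 ≤ r) :
    ∑ n ∈ Finset.range (2 * M0 R r), (1 - 2 * Real.log (del R r n)) ≤
      (2 * M0 R r) * (1 + 2 * Real.log (8 * (2 * M0 R r))) + 270 * r ^ 4 / R ^ 2 := by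
  have hd : Dat R r (R * r) := ⟨hR, hr, by positivity, by rw [mul_pow], by
    rw [mul_pow]; nlinarith [sq_nonneg r]⟩
  have hM := M0_big hd
  have hterm : ∀ n, 1 - 2 * Real.log (del R r n) = (1 + 2 * Real.log (8 * (2 * M0 R r))) +
      (if NN R r < n ∧ (n : ℝ) ≤ NN R r + 15 * r ^ 2 then 18 * r ^ 2 / R ^ 2 else 0) := by
    intro n
    unfold del
    split_ifs
    · rw [Real.log_div (Real.exp_pos _).ne' (by positivity), Real.log_exp]; ring
    · rw [Real.log_div one_ne_zero (by positivity), Real.log_one]; ring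
  rw [Finset.sum_congr rfl fun n _ => hterm n, Finset.sum_add_distrib, Finset.sum_const,
    Finset.card_range, nsmul_eq_mul]
  push_cast
  have hcount : ∑ n ∈ Finset.range (2 * M0 R r),
      (if NN R r < n ∧ (n : ℝ) ≤ NN R r + 15 * r ^ 2 then 18 * r ^ 2 / R ^ 2 else 0) ≤
      (15 * r ^ 2) * (18 * r ^ 2 / R ^ 2) := by
    rw [← Finset.sum_filter, Finset.sum_const, nsmul_eq_mul]
    apply mul_le_mul_of_nonneg_right _ (by positivity)
    have hsub : Finset.filter (fun n : ℕ => NN R r < n ∧ (n : ℝ) ≤ NN R r + 15 * r ^ 2)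
        (Finset.range (2 * M0 R r)) ⊆ Finset.Ioc (NN R r) (NN R r + ⌊15 * r ^ 2⌋₊) := by
      intro n hn
      rw [Finset.mem_filter] at hn
      rw [Finset.mem_Ioc]
      refine ⟨hn.2.1, ?_⟩
      obtain ⟨i, hi⟩ := Nat.exists_eq_add_of_le hn.2.1.le
      have : (i : ℝ) ≤ 15 * r ^ 2 := by
        have h2 := hn.2.2
        rw [hi] at h2
        push_cast at h2
        linarith
      have := Nat.le_floor this
      omega
    have hcard := Finset.card_le_card hsub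
    rw [Nat.card_Ioc] at hcard
    have h3 : (⌊15 * r ^ 2⌋₊ : ℝ) ≤ 15 * r ^ 2 := Nat.floor_le (by positivity)
    have h4 : ((Finset.filter (fun n : ℕ => NN R r < n ∧ (n : ℝ) ≤ NN R r + 15 * r ^ 2)
        (Finset.range (2 * M0 R r))).card : ℝ) ≤ ⌊15 * r ^ 2⌋₊ := by
      have : (Finset.filter (fun n : ℕ => NN R r < n ∧ (n : ℝ) ≤ NN R r + 15 * r ^ 2)
        (Finset.range (2 * M0 R r))).card ≤ ⌊15 * r ^ 2⌋₊ := by omega
      exact_mod_cast this
    linarith
  have h5 : (15 * r ^ 2) * (18 * r ^ 2 / R ^ 2) = 270 * r ^ 4 / R ^ 2 := by ring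
  rw [h5] at hcount
  linarith

/-- The lower order terms. -/
lemma lower_order {R : ℝ} (hR : 300 ≤ R) : ∀ᶠ r : ℝ in atTop,
    5 + (2 * M0 R r) * (1 + 2 * Real.log (8 * (2 * M0 R r))) ≤ 30 * r ^ 4 / R ^ 2 := by
  have hR0 : 0 < R := by linarith
  -- bound M by 12 R² r²
  have hlog : ∀ᶠ x : ℝ in atTop, Real.log x ≤ (1 / (200 * R ^ 6)) * x := by
    have h := Real.isLittleO_log_id_atTop.bound (c := 1 / (200 * R ^ 6)) (by positivity)
    filter_upwards [h, eventually_ge_atTop (1:ℝ)] with x hx hx1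
    rw [Real.norm_eq_abs, Real.norm_eq_abs, abs_of_nonneg (Real.log_nonneg hx1)] at hx
    simp only [id_eq] at hx
    rwa [abs_of_nonneg (by linarith)] at hx
  have htop : Tendsto (fun r : ℝ => 96 * R ^ 2 * r ^ 2) atTop atTop := by
    apply Tendsto.const_mul_atTop (by positivity)
    exact tendsto_pow_atTop (by norm_num)
  have hsq : Tendsto (fun r : ℝ => r ^ 2) atTop atTop := tendsto_pow_atTop (by norm_num)
  filter_upwards [htop.eventually hlog, eventually_ge_atTop (10:ℝ),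
    hsq.eventually (eventually_ge_atTop (2 * R ^ 4))] with r hr hr10 hrR
  have hr2 : (100:ℝ) ≤ r ^ 2 := by nlinarith
  have hR2 : (90000:ℝ) ≤ R ^ 2 := by nlinarith
  have hd : Dat R r (R * r) := ⟨hR, hr10, by positivity, by rw [mul_pow], by
    rw [mul_pow]; nlinarith [sq_nonneg r]⟩
  have hM := M0_big hd
  have hM1 : (M0 R r : ℝ) ≤ 6 * R ^ 2 * r ^ 2 := by
    have h1 : (M0 R r : ℝ) < 5 * R ^ 2 * r ^ 2 + 1 := Nat.ceil_lt_add_one (by positivity)
    have h2 : 1 ≤ R ^ 2 * r ^ 2 := by nlinarith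
    linarith
  have hlogM : Real.log (8 * (2 * M0 R r)) ≤ (1 / (200 * R ^ 6)) * (96 * R ^ 2 * r ^ 2) := by
    refine le_trans (Real.log_le_log (by positivity) ?_) hr
    nlinarith
  have hlog0 : 0 ≤ Real.log (8 * (2 * M0 R r)) := Real.log_nonneg (by linarith)
  have h3 : (2 * M0 R r : ℝ) * (1 + 2 * Real.log (8 * (2 * M0 R r))) ≤
      (12 * R ^ 2 * r ^ 2) * (1 + 2 * ((1 / (200 * R ^ 6)) * (96 * R ^ 2 * r ^ 2))) := by
    apply mul_le_mul (by linarith) (by linarith) (by linarith) (by positivity)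
  have h4 : (12 * R ^ 2 * r ^ 2) * (1 + 2 * ((1 / (200 * R ^ 6)) * (96 * R ^ 2 * r ^ 2))) =
      12 * R ^ 2 * r ^ 2 + (2304 / 200) * (r ^ 4 / R ^ 2) := by
    field_simp
    ring
  have h5 : 12 * R ^ 2 * r ^ 2 + 5 ≤ 13 * R ^ 2 * r ^ 2 := by nlinarith
  have h6 : 13 * R ^ 2 * r ^ 2 ≤ (13 / 2) * (r ^ 4 / R ^ 2) := by
    rw [mul_div_assoc', le_div_iff₀ (by positivity)]
    have : r ^ 4 = r ^ 2 * r ^ 2 := by ring
    rw [this]
    nlinarith [mul_le_mul_of_nonneg_right hrR (sq_nonneg r)]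
  have h7 : 30 * r ^ 4 / R ^ 2 = 30 * (r ^ 4 / R ^ 2) := by ring
  have h8 : 0 ≤ r ^ 4 / R ^ 2 := by positivity
  rw [h7]
  linarith

/-- The upper bound for the exponent, from the probability bound. -/
theorem exponent_le {Ω : Type*} [MeasurableSpace Ω] (P : Measure Ω) [IsProbabilityMeasure P]
    (ξ : ℕ → Ω → ℂ)
    (hev : ∀ (M N : ℕ), 10 ≤ M → N < M → ∀ δ : ℕ → ℝ, (∀ n, 0 < δ n) → (∀ n, δ n ≤ 1) →
      Real.exp (-5) * ∏ n ∈ Finset.range M, (Real.exp (-1) * δ n ^ 2) ≤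
      (P {ω | 1 ≤ ‖ξ N ω‖ ∧ (∀ n, n < M → n ≠ N → ‖ξ n ω‖ ≤ δ n) ∧
        ∀ n, M ≤ n → ‖ξ n ω‖ ≤ n}).toReal)
    {R : ℝ} (hR : 300 ≤ R) :
    ∀ᶠ r : ℝ in atTop, holeExponent P ξ (thin R) r ≤ 300 / R ^ 2 * r ^ 4 := by
  filter_upwards [lower_order hR, eventually_ge_atTop (10:ℝ)] with r hlow hr
  have hd : Dat R r (R * r) := ⟨hR, hr, by positivity, by rw [mul_pow], by
    rw [mul_pow]; nlinarith [sq_nonneg r]⟩
  have hM := M0_big hd
  have hMn : 10 ≤ 2 * M0 R r := by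
    have : (10:ℝ) ≤ (2 * M0 R r : ℕ) := by push_cast; linarith
    exact_mod_cast this
  have hMN : NN R r < 2 * M0 R r := by
    have h1 := NN_le hd
    have h2 := M0_ge hd
    have hr2 : (100:ℝ) ≤ r ^ 2 := by nlinarith
    have hR2 : (90000:ℝ) ≤ R ^ 2 := by nlinarith
    have : (NN R r : ℝ) < (2 * M0 R r : ℕ) := by
      push_cast; nlinarith
    exact_mod_cast this
  have hp := hev (2 * M0 R r) (NN R r) hMn hMN (del R r) (del_pos hd) (del_le_one hd)
  set Q : ℝ := Real.exp (-5) * ∏ n ∈ Finset.range (2 * M0 R r), (Real.exp (-1) * del R r n ^ 2)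
    with hQ
  have hQpos : 0 < Q := by
    rw [hQ]
    refine mul_pos (Real.exp_pos _) (Finset.prod_pos fun n _ => ?_)
    have := del_pos hd n
    positivity
  have hsub : {ω | 1 ≤ ‖ξ (NN R r) ω‖ ∧ (∀ n, n < 2 * M0 R r → n ≠ NN R r → ‖ξ n ω‖ ≤ del R r n) ∧
        ∀ n, 2 * M0 R r ≤ n → ‖ξ n ω‖ ≤ n} ⊆
      {ω | ∀ z ∈ thin R, gef ξ ω ((r : ℂ) * z) ≠ 0} := by
    rintro ω ⟨h1, h2, h3⟩ z hz
    exact no_zero (fun n => ξ n ω) h1 h2 h3 _ (dat_of_mem hR hr hz)
  have hle : Q ≤ (P {ω | ∀ z ∈ thin R, gef ξ ω ((r : ℂ) * z) ≠ 0}).toReal := by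
    refine hp.trans (ENNReal.toReal_mono (measure_ne_top _ _) (measure_mono hsub))
  have hlogQ : -Real.log Q = 5 + ∑ n ∈ Finset.range (2 * M0 R r), (1 - 2 * Real.log (del R r n)) := by
    rw [hQ, Real.log_mul (Real.exp_pos _).ne' ?_, Real.log_exp, Real.log_prod]
    · have : ∀ n ∈ Finset.range (2 * M0 R r), Real.log (Real.exp (-1) * del R r n ^ 2) =
          -(1 - 2 * Real.log (del R r n)) := by
        intro n _
        have hpn := del_pos hd n
        rw [Real.log_mul (Real.exp_pos _).ne' (by positivity), Real.log_exp, Real.log_pow]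
        push_cast; ring
      rw [Finset.sum_congr rfl this, Finset.sum_neg_distrib]
      ring
    · intro n _
      have := del_pos hd n
      positivity
    · refine (Finset.prod_pos fun n _ => ?_).ne'
      have := del_pos hd n
      positivity
  have h1 : holeExponent P ξ (thin R) r ≤ -Real.log Q := by
    unfold holeExponent
    have := Real.log_le_log hQpos hle
    linarith
  have h2 := sum_log hR hr
  have h3 : 300 / R ^ 2 * r ^ 4 = 30 * r ^ 4 / R ^ 2 + 270 * r ^ 4 / R ^ 2 := by ring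
  rw [h3]
  linarith

end Pool.Agent.W784.HP
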