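import Pool.Agent.W784.HP.Defs

set_option autoImplicit false

open MeasureTheory ProbabilityTheory Filter Topology

namespace Pool.Agent.W784.HP

/-- The modulus of `z^n / √(n!)`. -/
noncomputable def A (ρ : ℝ) (n : ℕ) : ℝ := ρ ^ n / Real.sqrt (n.factorial : ℝ)

lemma A_pos {ρ : ℝ} (h : 0 < ρ) (n : ℕ) : 0 < A ρ n := by
  unfold A
  have : (0:ℝ) < (n.factorial : ℝ) := by exact_mod_cast n.factorial_pos
  positivity

lemma A_succ (ρ : ℝ) (n : ℕ) : A ρ (n + 1) = A ρ n * (ρ / Real.sqrt ((n : ℝ) + 1)) := by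
  unfold A
  rw [Nat.factorial_succ, pow_succ]
  push_cast
  rw [Real.sqrt_mul (by positivity)]
  have h1 : Real.sqrt ((n:ℝ) + 1) ≠ 0 := by positivity
  have h2 : Real.sqrt (n.factorial : ℝ) ≠ 0 := by
    have : (0:ℝ) < (n.factorial : ℝ) := by exact_mod_cast n.factorial_pos
    positivity
  field_simp

/-- The data of the deterministic estimate. -/
structure Dat (R r ρ : ℝ) : Prop where
  hR : 300 ≤ R
  hr : 10 ≤ r
  hρ : 0 < ρ
  lo : R ^ 2 * r ^ 2 ≤ ρ ^ 2
  hi : ρ ^ 2 ≤ (R ^ 2 + 4) * r ^ 2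

noncomputable def NN (R r : ℝ) : ℕ := ⌊R ^ 2 * r ^ 2⌋₊
noncomputable def M0 (R r : ℝ) : ℕ := ⌈5 * R ^ 2 * r ^ 2⌉₊

section
variable {R r ρ : ℝ} (h : Dat R r ρ)
include h

lemma NN_le : (NN R r : ℝ) ≤ R ^ 2 * r ^ 2 := Nat.floor_le (by positivity)

lemma lt_NN : R ^ 2 * r ^ 2 < NN R r + 1 := Nat.lt_floor_add_one _

lemma A_mono_below {n : ℕ} (hn : n ≤ NN R r) : A ρ n ≤ A ρ (NN R r) := by
  have key : ∀ m, m ≤ NN R r → ∀ k, k ≤ m → A ρ k ≤ A ρ m := by
    intro m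
    induction m with
    | zero => intro _ k hk; rw [Nat.le_zero.1 hk]
    | succ m ih =>
      intro hm k hk
      rcases Nat.lt_or_ge k (m+1) with hlt | hge
      · refine (ih (by omega) k (by omega)).trans ?_
        rw [A_succ]
        refine le_mul_of_one_le_right (A_pos h.hρ m).le ?_
        rw [one_le_div (by positivity)]
        rw [Real.sqrt_le_left h.hρ.le]
        have : ((m:ℝ) + 1) ≤ NN R r := by exact_mod_cast hm
        linarith [NN_le h, h.lo]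
      · rw [Nat.le_antisymm hk hge]
  exact key _ le_rfl n hn

/-- The exponent. -/
noncomputable def F (R r : ℝ) (i : ℕ) : ℝ :=
  (4 / R ^ 2) * min (i : ℝ) (4 * r ^ 2 + 1) - (8 / (R ^ 2 + 12)) * max 0 ((i : ℝ) - 12 * r ^ 2 - 1)

omit h in
lemma sqrt_step {x a y : ℝ} (hx : 0 < x) (ha : 0 < a) (hy : x ^ 2 / a ≤ Real.exp y) :
    x / Real.sqrt a ≤ Real.exp (y / 2) := by
  have h1 : Real.exp (y / 2) = Real.sqrt (Real.exp y) := by
    rw [Real.exp_half]
  rw [h1]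
  have h2 : x / Real.sqrt a = Real.sqrt (x ^ 2 / a) := by
    rw [Real.sqrt_div (by positivity), Real.sqrt_sq hx.le]
  rw [h2]
  exact Real.sqrt_le_sqrt hy

lemma step (i : ℕ) : ρ ^ 2 / ((NN R r + i : ℝ) + 1) ≤ Real.exp (F R r (i + 1) - F R r i) := by
  have hR := h.hR
  have hr := h.hr
  have hR2 : (0:ℝ) < R ^ 2 := by positivity
  have hr2 : (100:ℝ) ≤ r ^ 2 := by nlinarith
  have hN0 : (0:ℝ) ≤ NN R r := Nat.cast_nonneg _
  have hi0 : (0:ℝ) ≤ i := Nat.cast_nonneg _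
  have hlt := lt_NN h
  have hle := NN_le h
  have hk : (0:ℝ) < (NN R r + i : ℝ) + 1 := by linarith
  have hmax : max 0 (((i + 1 : ℕ) : ℝ) - 12 * r ^ 2 - 1) - max 0 ((i : ℝ) - 12 * r ^ 2 - 1) ≤ 1 := by
    push_cast
    rcases le_total 0 ((i : ℝ) - 12 * r ^ 2 - 1) with h1 | h1
    · rw [max_eq_right h1, max_eq_right (by linarith)]; linarith
    · rw [max_eq_left h1]
      simp only [sub_zero]
      exact max_le (by norm_num) (by linarith)
  rcases le_or_gt (i : ℝ) (4 * r ^ 2) with hA | hB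
  · -- increasing part
    have e1 : min (((i + 1 : ℕ)) : ℝ) (4 * r ^ 2 + 1) = (i : ℝ) + 1 := by
      push_cast; exact min_eq_left (by linarith)
    have e2 : min (i : ℝ) (4 * r ^ 2 + 1) = i := min_eq_left (by linarith)
    have e3 : max 0 (((i + 1 : ℕ) : ℝ) - 12 * r ^ 2 - 1) = 0 := by
      push_cast; exact max_eq_left (by nlinarith)
    have e4 : max 0 ((i : ℝ) - 12 * r ^ 2 - 1) = 0 := max_eq_left (by nlinarith)
    have e5 : F R r (i + 1) - F R r i = 4 / R ^ 2 := by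
      unfold F
      rw [e1, e2, e3, e4]; ring
    rw [e5]
    have h1 : ρ ^ 2 / ((NN R r + i : ℝ) + 1) ≤ 4 / R ^ 2 + 1 := by
      rw [div_le_iff₀ hk]
      calc ρ ^ 2 ≤ (R ^ 2 + 4) * r ^ 2 := h.hi
        _ = (4 / R ^ 2 + 1) * (R ^ 2 * r ^ 2) := by field_simp; ring
        _ ≤ (4 / R ^ 2 + 1) * ((NN R r + i : ℝ) + 1) := by
          apply mul_le_mul_of_nonneg_left _ (by positivity)
          linarith
    exact h1.trans (Real.add_one_le_exp _)
  · have hmin : min (i : ℝ) (4 * r ^ 2 + 1) ≤ min (((i + 1 : ℕ)) : ℝ) (4 * r ^ 2 + 1) := by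
      push_cast; exact min_le_min_right _ (by linarith)
    rcases le_or_gt (i : ℝ) (12 * r ^ 2) with hC | hD
    · have e3 : max 0 (((i + 1 : ℕ) : ℝ) - 12 * r ^ 2 - 1) = 0 := by
        push_cast; exact max_eq_left (by linarith)
      have e4 : max 0 ((i : ℝ) - 12 * r ^ 2 - 1) = 0 := max_eq_left (by linarith)
      have e5 : 0 ≤ F R r (i + 1) - F R r i := by
        unfold F
        rw [e3, e4]
        have : (4 / R ^ 2) * min (i : ℝ) (4 * r ^ 2 + 1) ≤
          (4 / R ^ 2) * min (((i + 1 : ℕ)) : ℝ) (4 * r ^ 2 + 1) :=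
          mul_le_mul_of_nonneg_left hmin (by positivity)
        linarith
      have h1 : ρ ^ 2 / ((NN R r + i : ℝ) + 1) ≤ 1 := by
        rw [div_le_one hk]
        nlinarith [h.hi]
      exact h1.trans (Real.one_le_exp e5)
    · have e5 : -(8 / (R ^ 2 + 12)) ≤ F R r (i + 1) - F R r i := by
        unfold F
        have h1 : (4 / R ^ 2) * min (i : ℝ) (4 * r ^ 2 + 1) ≤
          (4 / R ^ 2) * min (((i + 1 : ℕ)) : ℝ) (4 * r ^ 2 + 1) :=
          mul_le_mul_of_nonneg_left hmin (by positivity)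
        have h2 : (8 / (R ^ 2 + 12)) * (max 0 (((i + 1 : ℕ) : ℝ) - 12 * r ^ 2 - 1) -
          max 0 ((i : ℝ) - 12 * r ^ 2 - 1)) ≤ (8 / (R ^ 2 + 12)) * 1 :=
          mul_le_mul_of_nonneg_left hmax (by positivity)
        linarith
      have h1 : ρ ^ 2 / ((NN R r + i : ℝ) + 1) ≤ -(8 / (R ^ 2 + 12)) + 1 := by
        rw [div_le_iff₀ hk]
        have h3 : (R ^ 2 + 12) * r ^ 2 ≤ (NN R r + i : ℝ) + 1 := by nlinarith
        have h4 : -(8 / (R ^ 2 + 12)) + 1 = (R ^ 2 + 4) / (R ^ 2 + 12) := by field_simp; ring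
        rw [h4]
        calc ρ ^ 2 ≤ (R ^ 2 + 4) * r ^ 2 := h.hi
          _ = (R ^ 2 + 4) / (R ^ 2 + 12) * ((R ^ 2 + 12) * r ^ 2) := by field_simp
          _ ≤ (R ^ 2 + 4) / (R ^ 2 + 12) * ((NN R r + i : ℝ) + 1) :=
            mul_le_mul_of_nonneg_left h3 (by positivity)
      exact (h1.trans (Real.add_one_le_exp _)).trans (Real.exp_le_exp.2 e5)

lemma A_above (i : ℕ) : A ρ (NN R r + i) ≤ A ρ (NN R r) * Real.exp (F R r i / 2) := by
  induction i with
  | zero =>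
    have : F R r 0 = 0 := by
      unfold F
      have hr2 : (0:ℝ) ≤ r ^ 2 := by positivity
      rw [min_eq_left (by push_cast; linarith), max_eq_left (by push_cast; linarith)]
      simp
    rw [this]; simp
  | succ i ih =>
    rw [← add_assoc, A_succ]
    have hk : (0:ℝ) < ((NN R r + i : ℕ) : ℝ) + 1 := by positivity
    have hs := sqrt_step h.hρ hk (y := F R r (i + 1) - F R r i) (by
      have := step h i
      push_cast
      exact this)
    calc A ρ (NN R r + i) * (ρ / Real.sqrt (((NN R r + i : ℕ) : ℝ) + 1))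
        ≤ (A ρ (NN R r) * Real.exp (F R r i / 2)) * Real.exp ((F R r (i + 1) - F R r i) / 2) :=
          mul_le_mul ih hs (by have := h.hρ; positivity) (by have := A_pos h.hρ (NN R r); positivity)
      _ = A ρ (NN R r) * Real.exp (F R r (i + 1) / 2) := by
          rw [mul_assoc, ← Real.exp_add]; congr 2; ring

lemma A_window (i : ℕ) : A ρ (NN R r + i) ≤ A ρ (NN R r) * Real.exp (9 * r ^ 2 / R ^ 2) := by
  refine (A_above h i).trans (mul_le_mul_of_nonneg_left (Real.exp_le_exp.2 ?_) (A_pos h.hρ _).le)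
  have hR := h.hR
  have hr := h.hr
  have hr2 : (100:ℝ) ≤ r ^ 2 := by nlinarith
  have h1 : F R r i ≤ (4 / R ^ 2) * (4 * r ^ 2 + 1) := by
    unfold F
    have a1 : (4 / R ^ 2) * min (i : ℝ) (4 * r ^ 2 + 1) ≤ (4 / R ^ 2) * (4 * r ^ 2 + 1) :=
      mul_le_mul_of_nonneg_left (min_le_right _ _) (by positivity)
    have a2 : 0 ≤ (8 / (R ^ 2 + 12)) * max 0 ((i : ℝ) - 12 * r ^ 2 - 1) := by positivity
    linarith
  have h2 : (4 / R ^ 2) * (4 * r ^ 2 + 1) ≤ 18 * r ^ 2 / R ^ 2 := by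
    rw [div_mul_eq_mul_div]
    exact div_le_div_of_nonneg_right (by nlinarith) (by positivity)
  have h3 : 9 * r ^ 2 / R ^ 2 = (18 * r ^ 2 / R ^ 2) / 2 := by ring
  rw [h3]
  linarith

lemma A_far (i : ℕ) (hi : 15 * r ^ 2 ≤ i) : A ρ (NN R r + i) ≤ A ρ (NN R r) := by
  refine (A_above h i).trans ?_
  have hR := h.hR
  have hr := h.hr
  have hr2 : (100:ℝ) ≤ r ^ 2 := by nlinarith
  have hR2 : (90000:ℝ) ≤ R ^ 2 := by nlinarith
  have hF : F R r i ≤ 0 := by
    unfold F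
    have a1 : (4 / R ^ 2) * min (i : ℝ) (4 * r ^ 2 + 1) ≤ (4 / R ^ 2) * (4 * r ^ 2 + 1) :=
      mul_le_mul_of_nonneg_left (min_le_right _ _) (by positivity)
    have a2 : (8 / (R ^ 2 + 12)) * (3 * r ^ 2 - 1) ≤
        (8 / (R ^ 2 + 12)) * max 0 ((i : ℝ) - 12 * r ^ 2 - 1) :=
      mul_le_mul_of_nonneg_left (le_trans (by linarith) (le_max_right _ _)) (by positivity)
    have a3 : (4 / R ^ 2) * (4 * r ^ 2 + 1) ≤ (8 / (R ^ 2 + 12)) * (3 * r ^ 2 - 1) := by
      rw [div_mul_eq_mul_div, div_mul_eq_mul_div, div_le_div_iff₀ (by positivity) (by positivity)]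
      nlinarith [mul_le_mul hR2 hr2 (by norm_num) (by positivity)]
    linarith
  have : Real.exp (F R r i / 2) ≤ 1 := Real.exp_le_one_iff.2 (by linarith)
  exact mul_le_of_le_one_right (A_pos h.hρ _).le this

lemma M0_ge : 5 * R ^ 2 * r ^ 2 ≤ M0 R r := Nat.le_ceil _

lemma A_M0 : A ρ (M0 R r) ≤ A ρ (NN R r) := by
  have hR := h.hR
  have hr := h.hr
  have hr2 : (100:ℝ) ≤ r ^ 2 := by nlinarith
  have hR2 : (90000:ℝ) ≤ R ^ 2 := by nlinarith
  have h1 := M0_ge h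
  have h2 := NN_le h
  have h3 : NN R r ≤ M0 R r := by
    have : (NN R r : ℝ) ≤ M0 R r := by nlinarith
    exact_mod_cast this
  obtain ⟨i, hi⟩ := Nat.exists_eq_add_of_le h3
  rw [hi]
  refine A_far h i ?_
  have : (M0 R r : ℝ) = NN R r + i := by rw [hi]; push_cast; ring
  nlinarith

lemma A_tail (j : ℕ) : A ρ (M0 R r + j) ≤ A ρ (NN R r) * (1 / 2) ^ j := by
  induction j with
  | zero => simpa using A_M0 h
  | succ j ih =>
    rw [← add_assoc, A_succ]
    have hR := h.hR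
    have hr := h.hr
    have hr2 : (100:ℝ) ≤ r ^ 2 := by nlinarith
    have hR2 : (90000:ℝ) ≤ R ^ 2 := by nlinarith
    have h1 := M0_ge h
    have hk : (0:ℝ) < ((M0 R r + j : ℕ) : ℝ) + 1 := by positivity
    have h2 : ρ / Real.sqrt (((M0 R r + j : ℕ) : ℝ) + 1) ≤ 1 / 2 := by
      rw [div_le_iff₀ (by positivity)]
      have h3 : 2 * ρ ≤ Real.sqrt (((M0 R r + j : ℕ) : ℝ) + 1) := by
        apply Real.le_sqrt_of_sq_le
        push_cast
        have hj : (0:ℝ) ≤ j := Nat.cast_nonneg _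
        nlinarith [h.hi]
      linarith
    calc A ρ (M0 R r + j) * (ρ / Real.sqrt (((M0 R r + j : ℕ) : ℝ) + 1))
        ≤ (A ρ (NN R r) * (1 / 2) ^ j) * (1 / 2) :=
          mul_le_mul ih h2 (by have := h.hρ; positivity) (by have := A_pos h.hρ (NN R r); positivity)
      _ = A ρ (NN R r) * (1 / 2) ^ (j + 1) := by rw [pow_succ]; ring

end

end Pool.Agent.W784.HP
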