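import Pool.Agent.W784.HP.Det

set_option autoImplicit false

open MeasureTheory ProbabilityTheory Filter Topology

namespace Pool.Agent.W784.HP

/-- The thresholds. -/
noncomputable def del (R r : ℝ) (n : ℕ) : ℝ :=
  if NN R r < n ∧ (n : ℝ) ≤ NN R r + 15 * r ^ 2 then
    Real.exp (-(9 * r ^ 2 / R ^ 2)) / (8 * (2 * M0 R r)) else 1 / (8 * (2 * M0 R r))

section
variable {R r ρ : ℝ} (h : Dat R r ρ)
include h

lemma M0_big : (100 : ℝ) ≤ M0 R r := by
  have hR := h.hR
  have hr := h.hr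
  have hr2 : (100:ℝ) ≤ r ^ 2 := by nlinarith
  have hR2 : (90000:ℝ) ≤ R ^ 2 := by nlinarith
  have h1 := M0_ge h
  nlinarith

lemma del_pos (n : ℕ) : 0 < del R r n := by
  have := M0_big h
  unfold del
  split_ifs <;> positivity

lemma del_le_one (n : ℕ) : del R r n ≤ 1 := by
  have h1 := M0_big h
  have h2 : 1 / (8 * (2 * (M0 R r : ℝ))) ≤ 1 := by
    rw [div_le_one (by positivity)]; linarith
  unfold del
  split_ifs
  · refine le_trans ?_ h2
    apply div_le_div_of_nonneg_right _ (by positivity)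
    apply Real.exp_le_one_iff.2
    have := h.hR
    have : 0 ≤ 9 * r ^ 2 / R ^ 2 := by positivity
    linarith
  · exact h2

lemma del_A (n : ℕ) : del R r n * A ρ n ≤ A ρ (NN R r) / (8 * (2 * M0 R r)) := by
  have h1 := M0_big h
  have hA := A_pos h.hρ
  unfold del
  split_ifs with hc
  · obtain ⟨i, hi⟩ := Nat.exists_eq_add_of_le hc.1.le
    have h2 := A_window h i
    rw [← hi] at h2
    rw [div_mul_eq_mul_div]
    apply div_le_div_of_nonneg_right _ (by positivity)
    calc Real.exp (-(9 * r ^ 2 / R ^ 2)) * A ρ n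
        ≤ Real.exp (-(9 * r ^ 2 / R ^ 2)) * (A ρ (NN R r) * Real.exp (9 * r ^ 2 / R ^ 2)) :=
          mul_le_mul_of_nonneg_left h2 (Real.exp_pos _).le
      _ = A ρ (NN R r) * (Real.exp (-(9 * r ^ 2 / R ^ 2)) * Real.exp (9 * r ^ 2 / R ^ 2)) := by ring
      _ = A ρ (NN R r) := by rw [← Real.exp_add]; simp
  · have h2 : A ρ n ≤ A ρ (NN R r) := by
      rcases Nat.lt_or_ge (NN R r) n with hlt | hge
      · rw [not_and] at hc
        have h3 := hc hlt
        rw [not_le] at h3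
        obtain ⟨i, hi⟩ := Nat.exists_eq_add_of_le hlt.le
        have h4 : (n : ℝ) = NN R r + i := by rw [hi]; push_cast; ring
        have h5 := A_far h i (by linarith)
        rwa [← hi] at h5
      · exact A_mono_below h hge
    rw [div_mul_eq_mul_div, one_mul]
    exact div_le_div_of_nonneg_right h2 (by positivity)

omit h in
lemma pow_bound (j : ℕ) : (1 + (j : ℝ)) * (1 / 2) ^ j ≤ 2 * (3 / 4) ^ j := by
  induction j with
  | zero => norm_num
  | succ j ih =>
    push_cast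
    rw [pow_succ, pow_succ]
    rcases Nat.lt_or_ge j 1 with h0 | h1
    · interval_cases j; norm_num
    · have hj : (1:ℝ) ≤ j := by exact_mod_cast h1
      have hp : (0:ℝ) < (1 / 2) ^ j := by positivity
      have h2 : (1 + ((j:ℝ) + 1)) * (1 / 2) ≤ (1 + (j:ℝ)) * (3 / 4) := by linarith
      calc (1 + ((j:ℝ) + 1)) * ((1 / 2) ^ j * (1 / 2)) = (1 + ((j:ℝ) + 1)) * (1 / 2) * (1 / 2) ^ j := by
            ring
        _ ≤ (1 + (j:ℝ)) * (3 / 4) * (1 / 2) ^ j := mul_le_mul_of_nonneg_right h2 hp.le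
        _ = (1 + (j:ℝ)) * (1 / 2) ^ j * (3 / 4) := by ring
        _ ≤ 2 * (3 / 4) ^ j * (3 / 4) := mul_le_mul_of_nonneg_right ih (by norm_num)
        _ = 2 * ((3 / 4) ^ j * (3 / 4)) := by ring

omit h in
lemma two_pow_bound (m : ℕ) (hm : 9 ≤ m) : 32 * (m : ℝ) * (1 / 2) ^ m ≤ 1 := by
  induction m, hm using Nat.le_induction with
  | base => norm_num
  | succ m hm ih =>
    push_cast
    rw [pow_succ]
    have h1 : (9:ℝ) ≤ m := by exact_mod_cast hm
    have hp : (0:ℝ) < (1 / 2) ^ m := by positivity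
    nlinarith

/-- The majorant of the terms. -/
noncomputable def maj (R r ρ : ℝ) (n : ℕ) : ℝ :=
  if n < 2 * M0 R r then A ρ (NN R r) / (8 * (2 * M0 R r)) else
    A ρ (NN R r) * (4 * M0 R r * (1 / 2) ^ M0 R r * (3 / 4) ^ (n - 2 * M0 R r))

lemma tail_term (n : ℕ) (hn : 2 * M0 R r ≤ n) : (n : ℝ) * A ρ n ≤ maj R r ρ n := by
  have h1 := M0_big h
  obtain ⟨j, hj⟩ := Nat.exists_eq_add_of_le hn
  unfold maj
  rw [if_neg (by omega)]
  have h2 : n - 2 * M0 R r = j := by omega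
  rw [h2]
  have h3 := A_tail h (M0 R r + j)
  have h4 : M0 R r + (M0 R r + j) = n := by omega
  rw [h4] at h3
  have hA := A_pos h.hρ (NN R r)
  have h5 : (n : ℝ) ≤ 2 * M0 R r * (1 + j) := by
    rw [hj]; push_cast
    have : (0:ℝ) ≤ j := Nat.cast_nonneg _
    nlinarith
  have h6 := pow_bound j
  have hj0 : (0:ℝ) ≤ j := Nat.cast_nonneg _
  calc (n : ℝ) * A ρ n ≤ (2 * M0 R r * (1 + j)) * (A ρ (NN R r) * (1 / 2) ^ (M0 R r + j)) :=
        mul_le_mul h5 h3 (A_pos h.hρ n).le (by positivity)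
    _ = A ρ (NN R r) * (2 * M0 R r * (1 / 2) ^ M0 R r * ((1 + j) * (1 / 2) ^ j)) := by
        rw [pow_add]; ring
    _ ≤ A ρ (NN R r) * (2 * M0 R r * (1 / 2) ^ M0 R r * (2 * (3 / 4) ^ j)) := by
        apply mul_le_mul_of_nonneg_left _ hA.le
        exact mul_le_mul_of_nonneg_left h6 (by positivity)
    _ = _ := by ring

lemma maj_hasSum : ∃ S : ℝ, HasSum (maj R r ρ) S ∧ S < A ρ (NN R r) := by
  have h1 := M0_big h
  have hA := A_pos h.hρ (NN R r)
  set M := 2 * M0 R r with hM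
  have hg : HasSum (fun j : ℕ => A ρ (NN R r) * (4 * M0 R r * (1 / 2) ^ M0 R r * (3 / 4) ^ j))
      (A ρ (NN R r) * (4 * M0 R r * (1 / 2) ^ M0 R r * (1 - 3 / 4)⁻¹)) :=
    ((hasSum_geometric_of_lt_one (by norm_num) (by norm_num)).mul_left _).mul_left _
  have hg2 : HasSum (fun j : ℕ => maj R r ρ (j + M))
      (A ρ (NN R r) * (4 * M0 R r * (1 / 2) ^ M0 R r * (1 - 3 / 4)⁻¹)) := by
    refine hg.congr_fun ?_ |> fun x => x
    intro j
    unfold maj
    rw [if_neg (by omega)]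
    congr 3
    omega
  have hs := (hasSum_nat_add_iff (f := maj R r ρ) M).1 hg2
  refine ⟨_, hs, ?_⟩
  have e1 : ∑ i ∈ Finset.range M, maj R r ρ i = A ρ (NN R r) / 8 := by
    have : ∀ i ∈ Finset.range M, maj R r ρ i = A ρ (NN R r) / (8 * (2 * M0 R r)) := by
      intro i hi
      unfold maj
      rw [if_pos (Finset.mem_range.1 hi)]
    rw [Finset.sum_congr rfl this, Finset.sum_const, Finset.card_range, nsmul_eq_mul, hM]
    push_cast
    have : (M0 R r : ℝ) ≠ 0 := by positivity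
    field_simp
  rw [e1]
  have e2 : 32 * (M0 R r : ℝ) * (1 / 2) ^ M0 R r ≤ 1 := by
    apply two_pow_bound
    have : (9:ℝ) ≤ M0 R r := by linarith
    exact_mod_cast this
  have e3 : 4 * (M0 R r : ℝ) * (1 / 2) ^ M0 R r * (1 - 3 / 4)⁻¹ ≤ 1 / 2 := by
    have : (1 - 3 / 4 : ℝ)⁻¹ = 4 := by norm_num
    rw [this]
    linarith
  nlinarith

end

/-- The function has no zero on the circles of radius `ρ`. -/
theorem no_zero {R r : ℝ} (c : ℕ → ℂ) (hN : 1 ≤ ‖c (NN R r)‖)
    (hs : ∀ n, n < 2 * M0 R r → n ≠ NN R r → ‖c n‖ ≤ del R r n)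
    (ht : ∀ n, 2 * M0 R r ≤ n → ‖c n‖ ≤ n) (z : ℂ) (h : Dat R r ‖z‖) :
    (∑' n : ℕ, c n * z ^ n / ((Real.sqrt (n.factorial : ℝ) : ℝ) : ℂ)) ≠ 0 := by
  set t : ℕ → ℂ := fun n => c n * z ^ n / ((Real.sqrt (n.factorial : ℝ) : ℝ) : ℂ) with htdef
  have hnorm : ∀ n, ‖t n‖ = ‖c n‖ * A ‖z‖ n := by
    intro n
    rw [htdef]
    simp only
    rw [norm_div, norm_mul, norm_pow, Complex.norm_real, Real.norm_eq_abs,
      abs_of_nonneg (Real.sqrt_nonneg _), A, mul_div_assoc]
  have hMN : NN R r < 2 * M0 R r := by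
    have h1 := NN_le h
    have h2 := M0_ge h
    have hR := h.hR
    have hr := h.hr
    have hr2 : (100:ℝ) ≤ r ^ 2 := by nlinarith
    have hR2 : (90000:ℝ) ≤ R ^ 2 := by nlinarith
    have : (NN R r : ℝ) < (2 * M0 R r : ℕ) := by
      push_cast; nlinarith
    exact_mod_cast this
  have hmaj : ∀ n, n ≠ NN R r → ‖t n‖ ≤ maj R r ‖z‖ n := by
    intro n hn
    rw [hnorm]
    rcases Nat.lt_or_ge n (2 * M0 R r) with hlt | hge
    · refine (mul_le_mul_of_nonneg_right (hs n hlt hn) (A_pos h.hρ n).le).trans ?_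
      unfold maj
      rw [if_pos hlt]
      exact del_A h n
    · exact (mul_le_mul_of_nonneg_right (ht n hge) (A_pos h.hρ n).le).trans (tail_term h n hge)
  obtain ⟨S, hS, hSlt⟩ := maj_hasSum h
  have hmaj0 : ∀ n, 0 ≤ maj R r ‖z‖ n := by
    intro n
    have := A_pos h.hρ (NN R r)
    unfold maj
    split_ifs <;> positivity
  have hsum2 : Summable (fun n => if n = NN R r then (0:ℂ) else t n) := by
    refine Summable.of_norm_bounded hS.summable ?_
    intro n
    by_cases hn : n = NN R r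
    · rw [if_pos hn, norm_zero]; exact hmaj0 n
    · rw [if_neg hn]; exact hmaj n hn
  have hsum : Summable t := by
    have h1 : t = fun n => (if n = NN R r then (0:ℂ) else t n) + (if n = NN R r then t n else 0) := by
      funext n
      split_ifs <;> simp
    rw [h1]
    refine hsum2.add ?_
    refine summable_of_ne_finset_zero (s := {NN R r}) ?_
    intro n hn
    rw [if_neg (by simpa using hn)]
  intro h0
  have h1 := hsum.tsum_eq_add_tsum_ite (NN R r)
  have h2 : (∑' n, t n) = 0 := h0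
  rw [h2] at h1
  have h3 : ‖t (NN R r)‖ = ‖∑' n, if n = NN R r then (0:ℂ) else t n‖ := by
    rw [← norm_neg]
    congr 1
    linear_combination h1
  have h4 : ‖∑' n, if n = NN R r then (0:ℂ) else t n‖ ≤ S := by
    refine tsum_of_norm_bounded hS ?_
    intro n
    by_cases hn : n = NN R r
    · rw [if_pos hn, norm_zero]; exact hmaj0 n
    · rw [if_neg hn]; exact hmaj n hn
  have h5 : A ‖z‖ (NN R r) ≤ ‖t (NN R r)‖ := by
    rw [hnorm]
    exact le_mul_of_one_le_left (A_pos h.hρ _).le hN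
  linarith

end Pool.Agent.W784.HP
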